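import Mathlib

/-!
Helper lemmas: connectivity of induced subgraphs, and lower bounds for distances.
-/

namespace Pool.Agent.H38G

open SimpleGraph

/-- a nonempty part of a connected induced subgraph closed under adjacency is everything -/
lemma subset_of_closed {V : Type*} {G : SimpleGraph V} {S T : Set V}
    (hc : (G.induce S).Preconnected) {x0 : V} (hx0 : x0 ∈ S) (hx0T : x0 ∈ T)
    (hcl : ∀ x ∈ S, ∀ y ∈ S, G.Adj x y → x ∈ T → y ∈ T) : S ⊆ T := by
  intro y hy
  obtain ⟨p⟩ := hc ⟨x0, hx0⟩ ⟨y, hy⟩
  have key : ∀ (a b : S) (q : (G.induce S).Walk a b), a.1 ∈ T → b.1 ∈ T := by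
    intro a b q
    induction q with
    | nil => exact fun h => h
    | @cons u v w h q ih =>
      intro hu
      exact ih (hcl u.1 u.2 v.1 v.2 h hu)
  exact key _ _ p hx0T

/-- a function changing by at most one along edges bounds the distance from below -/
lemma sub_le_dist {V : Type*} {G : SimpleGraph V} (hG : G.Connected) (h : V → ℕ)
    (hh : ∀ x y, G.Adj x y → h y ≤ h x + 1) (x y : V) : h y ≤ h x + G.dist x y := by
  obtain ⟨p, hp⟩ := hG.exists_walk_length_eq_dist x y
  rw [← hp]
  clear hp
  induction p with
  | nil => simp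
  | @cons u v w e q ih =>
    rw [Walk.length_cons]
    have := hh u v e
    omega

end Pool.Agent.H38G
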