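import Mathlib

/-!
Helper lemmas on walks, cut vertices, and local independence numbers of finite graphs.
-/

namespace Pool.Agent.H38G

open SimpleGraph

variable {V : Type*} {B : Type*}

/-- Along a walk avoiding `c`, a label that is constant on edges avoiding `c` is constant. -/
lemma label_const_of_avoid {G : SimpleGraph V} (c : V) (b : V → B)
    (hb : ∀ x y, G.Adj x y → x ≠ c → y ≠ c → b x = b y) :
    ∀ {u v : V} (p : G.Walk u v), c ∉ p.support → ∀ x ∈ p.support, b x = b u := by
  intro u v p
  induction p with
  | nil =>
    intro _ x hx
    simp only [Walk.support_nil, List.mem_singleton] at hx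
    rw [hx]
  | @cons u w v h p ih =>
    intro hc x hx
    simp only [Walk.support_cons, List.mem_cons, not_or] at hc hx
    have hwc : w ≠ c := fun e => hc.2 (e ▸ p.start_mem_support)
    rcases hx with rfl | hx
    · rfl
    · rw [ih hc.2 x hx]
      exact (hb u w h (fun e => hc.1 e.symm) hwc).symm

/-- On a path, every vertex other than the cut vertex `c` carries the label of one of the two
ends of the path. -/
lemma label_mem_of_isPath {G : SimpleGraph V} [DecidableEq V] (c : V) (b : V → B)
    (hb : ∀ x y, G.Adj x y → x ≠ c → y ≠ c → b x = b y)
    {u v : V} (p : G.Walk u v) (hp : p.IsPath) (x : V) (hx : x ∈ p.support) (hxc : x ≠ c) :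
    b x = b u ∨ b x = b v := by
  by_cases hc : c ∈ (p.takeUntil x hx).support
  · right
    have hnd : c ∉ (p.dropUntil x hx).support := by
      intro hc2
      have hsp := p.take_spec hx
      have hnod : p.support.Nodup := hp.support_nodup
      rw [← hsp, Walk.support_append] at hnod
      rw [← Walk.cons_tail_support] at hc2
      rcases List.mem_cons.1 hc2 with h | h
      · exact hxc h.symm
      · exact (List.nodup_append.1 hnod).2.2 c hc c h rfl
    have := label_const_of_avoid c b hb (p.dropUntil x hx) hnd v (Walk.end_mem_support _)
    exact this.symm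
  · left
    exact label_const_of_avoid c b hb (p.takeUntil x hx) hc x (Walk.end_mem_support _)

/-- Same as above, for a path that avoids `c`: both ends carry the same label. -/
lemma label_ends_eq {G : SimpleGraph V} (c : V) (b : V → B)
    (hb : ∀ x y, G.Adj x y → x ≠ c → y ≠ c → b x = b y)
    {u v : V} (p : G.Walk u v) (hc : c ∉ p.support) : b v = b u :=
  label_const_of_avoid c b hb p hc v p.end_mem_support

/-- lower bound for the independence number of the graph induced on a neighbourhood -/
lemma le_indepNum_neighbor [Fintype V] (G : SimpleGraph V) (v : V) (S : Finset V)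
    (hS : ∀ x ∈ S, G.Adj v x) (hI : ∀ x ∈ S, ∀ y ∈ S, x ≠ y → ¬ G.Adj x y) :
    S.card ≤ (G.induce (G.neighborSet v)).indepNum := by
  classical
  let T : Finset (G.neighborSet v) := S.subtype (fun x => x ∈ G.neighborSet v)
  have hT : T.card = S.card := by
    rw [Finset.card_subtype]
    congr 1
    apply Finset.filter_true_of_mem
    intro x hx
    exact hS x hx
  have hTI : (G.induce (G.neighborSet v)).IsIndepSet (T : Set (G.neighborSet v)) := by
    intro x hx y hy hxy
    have hx' : (x : V) ∈ S := by simpa [T] using hx
    have hy' : (y : V) ∈ S := by simpa [T] using hy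
    simp only [comap_adj, Function.Embedding.subtype_apply]
    exact hI x hx' y hy' (fun e => hxy (Subtype.ext e))
  rw [← hT]
  exact IsIndepSet.card_le_indepNum hTI

/-- upper bound for the independence number of the graph induced on a neighbourhood,
by a cover of the neighbourhood by `k` cliques -/
lemma indepNum_neighbor_le [Fintype V] (G : SimpleGraph V) (v : V) (k : ℕ) (col : V → Fin k)
    (hcol : ∀ x y, G.Adj v x → G.Adj v y → x ≠ y → col x = col y → G.Adj x y) :
    (G.induce (G.neighborSet v)).indepNum ≤ k := by
  classical
  obtain ⟨S, hS⟩ := (G.induce (G.neighborSet v)).exists_isNIndepSet_indepNum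
  rw [← hS.card_eq]
  have : S.card ≤ (Finset.univ : Finset (Fin k)).card := by
    apply Finset.card_le_card_of_injOn (fun x => col x.1)
    · intro x _
      exact Finset.mem_coe.2 (Finset.mem_univ _)
    · intro x hx y hy hxy
      by_contra hne
      have hne' : (x : V) ≠ y := fun e => hne (Subtype.ext e)
      have h1 := hcol x y x.2 y.2 hne' hxy
      exact hS.isIndepSet hx hy hne (by simpa using h1)
  simpa using this

end Pool.Agent.H38G
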