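import Mathlib

/-!
Helper lemmas: short cycles obstruct acyclicity of induced subgraphs.
-/

namespace Pool.Agent.H38G

open SimpleGraph

lemma not_acyclic_of_triangle {V : Type*} (H : SimpleGraph V) {a b c : V}
    (hab : H.Adj a b) (hbc : H.Adj b c) (hca : H.Adj c a) : ¬ H.IsAcyclic := by
  intro h
  have e1 := hab.ne
  have e2 := hbc.ne
  have e3 := hca.ne
  refine h (Walk.cons hab (Walk.cons hbc (Walk.cons hca Walk.nil))) ?_
  rw [Walk.cons_isCycle_iff]
  constructor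
  · simp [Walk.cons_isPath_iff, e1.symm, e2, e3]
  · simp [e1, e2, e3, e1.symm, e2.symm, e3.symm]

lemma not_acyclic_of_square {V : Type*} (H : SimpleGraph V) {a b c d : V}
    (hab : H.Adj a b) (hbc : H.Adj b c) (hcd : H.Adj c d) (hda : H.Adj d a)
    (hac : a ≠ c) (hbd : b ≠ d) : ¬ H.IsAcyclic := by
  intro h
  have e1 := hab.ne
  have e2 := hbc.ne
  have e3 := hcd.ne
  have e4 := hda.ne
  refine h (Walk.cons hab (Walk.cons hbc (Walk.cons hcd (Walk.cons hda Walk.nil)))) ?_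
  rw [Walk.cons_isCycle_iff]
  constructor
  · simp [Walk.cons_isPath_iff, e1.symm, e2, e3, e4, hac.symm, hbd]
  · simp [e1, e2, e3, e4, e1.symm, e2.symm, e3.symm, e4.symm, hac, hac.symm, hbd, hbd.symm]

/-- an induced forest contains at most two vertices of a clique -/
lemma card_inter_clique_le_two {V : Type*} [DecidableEq V] (G : SimpleGraph V) (S K : Finset V)
    (hS : (G.induce (S : Set V)).IsAcyclic) (hK : ∀ x ∈ K, ∀ y ∈ K, x ≠ y → G.Adj x y) :
    (S ∩ K).card ≤ 2 := by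
  by_contra hcon
  have h2 : 2 < (S ∩ K).card := by omega
  obtain ⟨x, hx, y, hy, z, hz, hxy, hxz, hyz⟩ := Finset.two_lt_card.1 h2
  rw [Finset.mem_inter] at hx hy hz
  refine not_acyclic_of_triangle (G.induce (S : Set V)) (a := ⟨x, hx.1⟩) (b := ⟨y, hy.1⟩)
    (c := ⟨z, hz.1⟩) ?_ ?_ ?_ hS
  · exact hK x hx.2 y hy.2 hxy
  · exact hK y hy.2 z hz.2 hyz
  · exact hK z hz.2 x hx.2 hxz.symm

end Pool.Agent.H38G
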